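import Pool.Agent.Q256.FX.Stm
import Pool.Agent.H951R3.PB.F4

/-!
# Job CNT: the number of points with a short orbit is bounded (helper14)
-/

set_option autoImplicit false

namespace Pool.Agent.Q14.FX

open Real Filter Topology
open Pool.Agent.Q256.FX (S_cnt)
open Pool.Agent.H951R3.PB

section itp

variable {K : Type} [Field K]

/-- the iterates as pairs of forms -/
noncomputable def itp (f : Fin 2 → MvPolynomial (Fin 2) K) : ℕ → Fin 2 → MvPolynomial (Fin 2) K
  | 0 => fun i => MvPolynomial.X i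
  | n + 1 => fun i => MvPolynomial.bind₁ (itp f n) (f i)

theorem itp_ev (f : Fin 2 → MvPolynomial (Fin 2) K) (n : ℕ) (x : Fin 2 → K) :
    ev (itp f n) x = (ev f)^[n] x := by
  induction n with
  | zero =>
    funext i
    simp [ev, itp]
  | succ n ih =>
    rw [Function.iterate_succ_apply', ← ih]
    funext i
    have h := MvPolynomial.aeval_bind₁ (R := K) (S := K) x (itp f n) (f i)
    simp only [MvPolynomial.aeval_eq_eval] at h
    exact h

theorem itp_hom {f : Fin 2 → MvPolynomial (Fin 2) K} {d : ℕ} (hf : ∀ i, (f i).IsHomogeneous d)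
    (n : ℕ) (i : Fin 2) : (itp f n i).IsHomogeneous (d ^ n) := by
  induction n generalizing i with
  | zero =>
    rw [pow_zero]
    exact MvPolynomial.isHomogeneous_X _ _
  | succ n ih =>
    rw [pow_succ]
    simp only [itp]
    exact (hf i).aeval (itp f n) ih

theorem itp_map {L : Type} [Field L] (σ : K →+* L) (f : Fin 2 → MvPolynomial (Fin 2) K) (n : ℕ)
    (i : Fin 2) : (itp f n i).map σ = itp (fun i => (f i).map σ) n i := by
  induction n generalizing i with
  | zero => simp [itp]
  | succ n ih =>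
    simp only [itp]
    rw [MvPolynomial.map_bind₁]
    congr 2
    funext i
    exact ih i

/-- the form whose zeros are the points whose `i`-th and `j`-th iterates agree -/
noncomputable def Phi (f : Fin 2 → MvPolynomial (Fin 2) K) (i j : ℕ) : MvPolynomial (Fin 2) K :=
  itp f i 0 * itp f j 1 - itp f i 1 * itp f j 0

theorem Phi_eval (f : Fin 2 → MvPolynomial (Fin 2) K) (i j : ℕ) (x : Fin 2 → K) :
    MvPolynomial.eval x (Phi f i j) = wd ((ev f)^[i] x) ((ev f)^[j] x) := by
  rw [← itp_ev, ← itp_ev]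
  simp [Phi, wd, ev]

theorem Phi_hom {f : Fin 2 → MvPolynomial (Fin 2) K} {d : ℕ} (hf : ∀ i, (f i).IsHomogeneous d)
    (i j : ℕ) : (Phi f i j).IsHomogeneous (d ^ i + d ^ j) :=
  ((itp_hom hf i 0).mul (itp_hom hf j 1)).sub ((itp_hom hf i 1).mul (itp_hom hf j 0))

theorem Phi_map {L : Type} [Field L] (σ : K →+* L) (f : Fin 2 → MvPolynomial (Fin 2) K)
    (i j : ℕ) : (Phi f i j).map σ = Phi (fun i => (f i).map σ) i j := by
  simp [Phi, itp_map]

/-- a nonzero form of degree `n` has at most `n + 1` zeros -/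
theorem zeros {p : MvPolynomial (Fin 2) K} {n : ℕ} (hp : p.IsHomogeneous n) (h0 : p ≠ 0)
    (S : Finset (Fin 2 → K)) (h2 : ∀ v ∈ S, ∀ w ∈ S, v ≠ w → wd v w ≠ 0)
    (h3 : ∀ v ∈ S, MvPolynomial.eval v p = 0) : S.card ≤ n + 1 := by
  classical
  have hdh : dh p ≠ 0 := by
    intro h
    apply h0
    rw [← E1.homog_dh hp, h, Polynomial.homogenize_zero]
  have hA : (S.filter fun v => v 1 ≠ 0).card ≤ n := by
    have h4 : (S.filter fun v => v 1 ≠ 0).card ≤ (dh p).roots.toFinset.card := by
      refine Finset.card_le_card_of_injOn (fun v => v 0 / v 1) ?_ ?_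
      · intro v hv
        simp only [Finset.coe_filter, Set.mem_ofPred_eq] at hv
        have h5 := h3 v hv.1
        rw [E1.eval_of_ne hp v hv.2] at h5
        have h6 := (mul_eq_zero.1 h5).resolve_right (pow_ne_zero _ hv.2)
        simp only [Finset.mem_coe, Multiset.mem_toFinset]
        rw [Polynomial.mem_roots hdh]
        exact h6
      · intro v hv w hw hvw
        simp only [Finset.coe_filter, Set.mem_ofPred_eq] at hv hw
        by_contra hne
        apply h2 v hv.1 w hw.1 hne
        simp only at hvw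
        rw [div_eq_div_iff hv.2 hw.2] at hvw
        unfold wd
        linear_combination hvw
    refine h4.trans ((Multiset.toFinset_card_le _).trans ((Polynomial.card_roots' _).trans ?_))
    exact E1.natDegree_dh_le hp
  have hB : (S.filter fun v => ¬ v 1 ≠ 0).card ≤ 1 := by
    rw [Finset.card_le_one]
    intro v hv w hw
    simp only [Finset.mem_filter, not_not] at hv hw
    by_contra hne
    apply h2 v hv.1 w hw.1 hne
    unfold wd
    rw [hv.2, hw.2]
    ring
  have h5 := Finset.card_filter_add_card_filter_not (s := S) (fun v => v 1 ≠ 0)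
  omega

end itp

section closed

variable {L : Type} [Field L] {w : AbsoluteValue L ℝ} {F : (Fin 2 → L) → Fin 2 → L}
  {d : ℕ} {r : ℝ}

theorem exists_unit (w : AbsoluteValue L ℝ) {x : Fin 2 → L} (hx : x ≠ 0) :
    ∃ k : L, k ≠ 0 ∧ nrm w (k • x) = 1 := by
  obtain ⟨k, hk0, -, hu, -⟩ := D1.exists_scale (w := w) hx
  exact ⟨k⁻¹, inv_ne_zero hk0, hu⟩

/-- the `i`-th and `j`-th iterates do not agree identically -/
theorem not_all [CharZero L] (h : Fib w F d r) (hd : 2 ≤ d) {i j : ℕ} (hij : i < j) :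
    ∃ x : Fin 2 → L, wd (F^[i] x) (F^[j] x) ≠ 0 := by
  by_contra hcon
  push Not at hcon
  obtain ⟨m, rfl⟩ : ∃ m, j = m + i := ⟨j - i, by omega⟩
  have hm : 1 ≤ m := by omega
  have hi := fib_iter h i
  have hG := fib_iter h m
  -- step 1
  have s1 : ∀ u, nrm w u = 1 → wd u (F^[m] u) = 0 := by
    intro u hu
    obtain ⟨C, z, hf⟩ := hi u hu
    have hpos : 0 < d ^ i := by positivity
    obtain ⟨c, hc, hz⟩ := hf.img ⟨0, hpos⟩
    have h1 := hcon (z ⟨0, hpos⟩)
    rw [Function.iterate_add_apply, hz, fib_homog hG, B1_wd_smul_right, B1_wd_smul_left] at h1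
    have h2 := (mul_eq_zero.1 h1).resolve_left (pow_ne_zero _ hc)
    exact (mul_eq_zero.1 h2).resolve_left hc
  set D : ℕ := d ^ m with hD
  have hD2 : 2 ≤ D := by
    calc 2 = 2 ^ 1 := rfl
      _ ≤ d ^ 1 := Nat.pow_le_pow_left hd 1
      _ ≤ d ^ m := Nat.pow_le_pow_right (by omega) hm
  -- step 2
  have s2 : ∀ u, nrm w u = 1 → ∃ α : L, ∀ x, wd u (F^[m] x) = α * wd x u ^ D := by
    intro u hu
    obtain ⟨C, z, hf⟩ := hG u hu
    have hu0 : u ≠ 0 := B1_ne_zero hu
    have h1 : ∀ k, ∃ a : L, z k = a • u := by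
      intro k
      obtain ⟨c, hc, hz⟩ := hf.img k
      have h2 := s1 (z k) (hf.unit k)
      rw [hz, B1_wd_smul_right] at h2
      exact B1_parallel hu0 ((mul_eq_zero.1 h2).resolve_left hc)
    choose a ha using h1
    refine ⟨C * ∏ k, a k, fun x => ?_⟩
    rw [hf.fac]
    have h3 : ∀ k, wd x (z k) = a k * wd x u := fun k => by
      conv_lhs => rw [ha k]
      rw [B1_wd_smul_right]
    simp only [h3]
    rw [Finset.prod_mul_distrib, Finset.prod_const, Finset.card_univ, Fintype.card_fin]
    ring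
  obtain ⟨α, hα⟩ := s2 ![1, 0] (B2_nrm_e0 w)
  obtain ⟨β, hβ⟩ := s2 ![0, 1] (B2_nrm_e1 w)
  have hα' : ∀ x, F^[m] x 1 = α * (-x 1) ^ D := by
    intro x
    have := hα x
    simpa [wd] using this
  have hβ' : ∀ x, F^[m] x 0 = -(β * x 0 ^ D) := by
    intro x
    have := hβ x
    simp only [wd, Matrix.cons_val_zero, Matrix.cons_val_one, zero_mul, one_mul, mul_one,
      mul_zero, zero_sub, sub_zero] at this
    rw [← this]
    ring
  have s3 : ∀ x : Fin 2 → L, x ≠ 0 → wd x (F^[m] x) = 0 := by
    intro x hx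
    obtain ⟨k, hk, hu⟩ := exists_unit w hx
    have h1 := s1 _ hu
    rw [fib_homog hG, B1_wd_smul_right, B1_wd_smul_left] at h1
    have h2 := (mul_eq_zero.1 h1).resolve_left (pow_ne_zero _ hk)
    exact (mul_eq_zero.1 h2).resolve_left hk
  have e1 := s3 ![1, 1] (by
    intro h
    have := congrFun h 0
    simp at this)
  have e2 := s3 ![2, 1] (by
    intro h
    have := congrFun h 1
    simp at this)
  rw [wd, hα', hβ'] at e1 e2
  simp only [Matrix.cons_val_zero, Matrix.cons_val_one, one_mul, one_pow, mul_one] at e1 e2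
  -- β is not zero
  have hβ0 : β ≠ 0 := by
    intro h0
    rw [h0] at e1
    have hx : (![1, 1] : Fin 2 → L) ≠ 0 := by
      intro h
      have := congrFun h 0
      simp at this
    apply fib_ne_zero hG hx
    funext i
    fin_cases i
    · simp only [Fin.zero_eta, Pi.zero_apply]
      rw [hβ', h0]
      simp
    · simp only [Fin.mk_one, Pi.zero_apply]
      rw [hα']
      have e0 : (![1, 1] : Fin 2 → L) 1 = 1 := rfl
      rw [e0]
      linear_combination e1
  have e3 : β * ((2 : L) ^ D - 2) = 0 := by linear_combination e2 - 2 * e1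
  have e4 : (2 : L) ^ D = 2 := by
    have := (mul_eq_zero.1 e3).resolve_left hβ0
    linear_combination this
  have e5 : (2 : ℕ) ^ D = 2 := by exact_mod_cast e4
  have e6 : 2 ^ 2 ≤ (2 : ℕ) ^ D := Nat.pow_le_pow_right (by norm_num) hD2
  omega

end closed

theorem cnt : S_cnt := by
  classical
  intro d N hd
  refine ⟨∑ j ∈ Finset.range (N + 1), ∑ i ∈ Finset.range j, (d ^ i + d ^ j + 1), ?_⟩
  intro f hf h0 S h1 h2 h3
  have hPhi : ∀ i j, i < j → Phi f i j ≠ 0 := by
    intro i j hij h
    let w0 : AbsoluteValue (AlgebraicClosure ℚ) ℝ := AbsoluteValue.trivial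
    have hfib := F4_fib (by omega) hf h0 w0
    obtain ⟨x, hx⟩ := not_all hfib hd hij
    apply hx
    rw [← Phi_eval]
    have h4 : Phi (fL ℚ f) i j = 0 := by
      have h5 := Phi_map (algebraMap ℚ (AlgebraicClosure ℚ)) f i j
      rw [h, map_zero] at h5
      exact h5.symm
    rw [h4, map_zero]
  have hsub : S ⊆ (Finset.range (N + 1)).biUnion fun j => (Finset.range j).biUnion fun i =>
      S.filter fun v => wd ((ev f)^[i] v) ((ev f)^[j] v) = 0 := by
    intro v hv
    obtain ⟨i, j, hij, hj, h⟩ := h3 v hv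
    simp only [Finset.mem_biUnion, Finset.mem_range, Finset.mem_filter]
    exact ⟨j, by omega, i, hij, hv, h⟩
  refine (Finset.card_le_card hsub).trans (Finset.card_biUnion_le.trans ?_)
  refine Finset.sum_le_sum fun j _ => Finset.card_biUnion_le.trans (Finset.sum_le_sum fun i hi => ?_)
  refine zeros (Phi_hom hf i j) (hPhi i j (Finset.mem_range.1 hi)) _ ?_ ?_
  · intro v hv u hu hne
    exact h2 v (Finset.mem_filter.1 hv).1 u (Finset.mem_filter.1 hu).1 hne
  · intro v hv
    rw [Phi_eval]
    exact (Finset.mem_filter.1 hv).2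

end Pool.Agent.Q14.FX
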