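import Pool.Agent.Q256.FX.StmD
import Pool.Agent.Q14.FX.Cnt

/-!
# Job CNTD: the number of points with a short orbit is bounded, over any field of
characteristic zero (helper14)
-/

set_option autoImplicit false

namespace Pool.Agent.Q14.FX

open Real Filter Topology
open Pool.Agent.Q256.FX (S_cntD)
open Pool.Agent.H951R3.PB

theorem cntD : S_cntD := by
  classical
  intro d N hd
  refine ⟨∑ j ∈ Finset.range (N + 1), ∑ i ∈ Finset.range j, (d ^ i + d ^ j + 1), ?_⟩
  intro K _ _ f hf h0 S h1 h2 h3
  haveI hcz : CharZero (AlgebraicClosure K) :=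
    charZero_of_injective_algebraMap (algebraMap K (AlgebraicClosure K)).injective
  have hPhi : ∀ i j, i < j → Phi f i j ≠ 0 := by
    intro i j hij h
    let w0 : AbsoluteValue (AlgebraicClosure K) ℝ := AbsoluteValue.trivial
    have hfib := F4_fib (by omega) hf h0 w0
    obtain ⟨x, hx⟩ := not_all hfib hd hij
    apply hx
    rw [← Phi_eval]
    have h4 : Phi (fL K f) i j = 0 := by
      have h5 := Phi_map (algebraMap K (AlgebraicClosure K)) f i j
      rw [h, map_zero] at h5
      exact h5.symm
    rw [h4, map_zero]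
  have hsub : S ⊆ (Finset.range (N + 1)).biUnion fun j => (Finset.range j).biUnion fun i =>
      S.filter fun v => wd ((ev f)^[i] v) ((ev f)^[j] v) = 0 := by
    intro v hv
    obtain ⟨i, j, hij, hj, h⟩ := h3 v hv
    simp only [Finset.mem_biUnion, Finset.mem_range, Finset.mem_filter]
    exact ⟨j, by omega, i, hij, hv, h⟩
  refine (Finset.card_le_card hsub).trans (Finset.card_biUnion_le.trans ?_)
  refine Finset.sum_le_sum fun j _ => Finset.card_biUnion_le.trans (Finset.sum_le_sum fun i hi => ?_)
  refine zeros (Phi_hom hf i j) (hPhi i j (Finset.mem_range.1 hi)) _ ?_ ?_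
  · intro v hv u hu hne
    exact h2 v (Finset.mem_filter.1 hv).1 u (Finset.mem_filter.1 hu).1 hne
  · intro v hv
    rw [Phi_eval]
    exact (Finset.mem_filter.1 hv).2

end Pool.Agent.Q14.FX
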