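import Pool.Agent.Q256.FX.Stm
import Pool.Agent.H951R3.PB.F4

/-!
# Job HT: the height of a point is at most the canonical height plus `A log X` (helper14)
-/

set_option autoImplicit false

namespace Pool.Agent.Q14.FX

open Real Filter Topology NumberField
open Pool.Agent.Q256.FX (fq S_ht)
open Pool.Agent.H951R3.PB

/-- exponents of degree `d` -/
noncomputable def mons (d : ℕ) : Finset (Fin 2 →₀ ℕ) := Finset.univ.finsuppAntidiag d

theorem supp_sub {R : Type} [CommSemiring R] {p : MvPolynomial (Fin 2) R} {d : ℕ}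
    (hp : p.IsHomogeneous d) : p.support ⊆ mons d := by
  intro m hm
  have h1 : m.weight 1 = d := hp (by simpa using hm)
  rw [mons, Finset.mem_finsuppAntidiag]
  refine ⟨?_, fun _ _ => Finset.mem_univ _⟩
  rw [← h1]
  simp [Finsupp.weight_apply, Finsupp.sum_fintype]

/-- the archimedean upper bound -/
theorem arch_up {d X : ℕ} {F : Fin 2 → MvPolynomial (Fin 2) ℤ}
    (hF : ∀ i, (F i).IsHomogeneous d) (hX : ∀ i μ, ((F i).coeff μ).natAbs ≤ X)
    (v : InfinitePlace ℚ) (w : AbsoluteValue (AlgebraicClosure ℚ) ℝ) (hw : Ext v.val w)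
    {z : Fin 2 → AlgebraicClosure ℚ} (hz : nrm w z = 1) :
    nrm w (ev (fL ℚ (fq F)) z) ≤ (mons d).card * X := by
  have hz1 : ∀ i, w (z i) ≤ 1 := by
    intro i
    fin_cases i
    · exact (le_max_left _ _).trans hz.le
    · exact (le_max_right _ _).trans hz.le
  have hc : ∀ i m, w (MvPolynomial.coeff m (fL ℚ (fq F) i)) ≤ X := by
    intro i m
    simp only [fL, fq, MvPolynomial.coeff_map]
    rw [hw]
    have h1 : v.val ((Int.castRingHom ℚ) ((F i).coeff m)) =
        ‖v.embedding ((Int.castRingHom ℚ) ((F i).coeff m))‖ :=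
      (InfinitePlace.norm_embedding_eq v _).symm
    rw [h1]
    have h2 : v.embedding ((Int.castRingHom ℚ) ((F i).coeff m)) = (((F i).coeff m : ℤ) : ℂ) := by
      simp
    rw [h2, Complex.norm_intCast]
    have h3 := hX i m
    have h4 : |(((F i).coeff m : ℤ) : ℝ)| = (((F i).coeff m).natAbs : ℝ) := by
      rw [Nat.cast_natAbs]
      simp
    rw [h4]
    exact_mod_cast h3
  have key : ∀ i, w (ev (fL ℚ (fq F)) z i) ≤ (mons d).card * X := by
    intro i
    simp only [ev]
    rw [MvPolynomial.eval_eq]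
    refine (w.sum_le _ _).trans ?_
    have hs : (fL ℚ (fq F) i).support ⊆ mons d := by
      refine supp_sub ?_
      exact ((hF i).map _).map _
    calc ∑ m ∈ (fL ℚ (fq F) i).support,
          w (MvPolynomial.coeff m (fL ℚ (fq F) i) * ∏ j ∈ m.support, z j ^ m j)
        ≤ ∑ m ∈ (fL ℚ (fq F) i).support, (X : ℝ) := by
          refine Finset.sum_le_sum fun m _ => ?_
          rw [map_mul, map_prod]
          have h5 : ∏ j ∈ m.support, w (z j ^ m j) ≤ 1 := by
            refine Finset.prod_le_one (fun j _ => w.nonneg _) fun j _ => ?_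
            rw [map_pow]
            exact pow_le_one₀ (w.nonneg _) (hz1 j)
          calc w (MvPolynomial.coeff m (fL ℚ (fq F) i)) * ∏ j ∈ m.support, w (z j ^ m j)
              ≤ X * 1 := mul_le_mul (hc i m) h5 (Finset.prod_nonneg fun j _ => w.nonneg _)
                (Nat.cast_nonneg _)
            _ = X := mul_one _
      _ = (fL ℚ (fq F) i).support.card * X := by rw [Finset.sum_const, nsmul_eq_mul]
      _ ≤ (mons d).card * X := by
          refine mul_le_mul_of_nonneg_right ?_ (Nat.cast_nonneg _)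
          exact_mod_cast Finset.card_le_card hs
  exact max_le (key 0) (key 1)

/-- the finite upper bound -/
theorem fin_up {K : Type} [Field K] {f : Fin 2 → MvPolynomial (Fin 2) K}
    (v : AbsoluteValue K ℝ) (w : AbsoluteValue (AlgebraicClosure K) ℝ)
    (hvw : Ext v w) (hna : IsNonarchimedean w) (hc : ∀ i m, v ((f i).coeff m) ≤ 1)
    {z : Fin 2 → AlgebraicClosure K} (hz : nrm w z = 1) : nrm w (ev (fL K f) z) ≤ 1 := by
  have hz1 : ∀ i, w (z i) ≤ 1 := by
    intro i
    fin_cases i
    · exact (le_max_left _ _).trans hz.le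
    · exact (le_max_right _ _).trans hz.le
  have key : ∀ i, w (ev (fL K f) z i) ≤ 1 := by
    intro i
    simp only [ev]
    rw [MvPolynomial.eval_eq]
    rcases Finset.eq_empty_or_nonempty ((fL K f) i).support with he | hne
    · rw [he]; simp
    obtain ⟨s, hs₁, hs₂⟩ :=
      hna.finset_image_add_of_nonempty
        (fun m => MvPolynomial.coeff m ((fL K f) i) * ∏ j ∈ m.support, z j ^ m j) hne
    refine hs₂.trans ?_
    rw [map_mul, map_prod]
    refine mul_le_one₀ ?_ (Finset.prod_nonneg fun j _ => w.nonneg _)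
      (Finset.prod_le_one (fun j _ => w.nonneg _) fun j _ => ?_)
    · simp only [fL, MvPolynomial.coeff_map]
      rw [hvw]
      exact hc i s
    · rw [map_pow]
      exact pow_le_one₀ (w.nonneg _) (hz1 j)
  exact max_le (key 0) (key 1)

/-- a lower bound on unit vectors gives one on all vectors -/
theorem low_all {L : Type} [Field L] {w : AbsoluteValue L ℝ}
    {F : (Fin 2 → L) → Fin 2 → L} {d : ℕ} {r T : ℝ} (h : Fib w F d r)
    (h1 : ∀ x, nrm w x = 1 → T ≤ log (nrm w (F x))) {x : Fin 2 → L} (hx : x ≠ 0) :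
    d * log (nrm w x) + T ≤ log (nrm w (F x)) := by
  obtain ⟨k, hk0, hk, hu, hx'⟩ := D1.exists_scale (w := w) hx
  have h2 : F x = k ^ d • F (k⁻¹ • x) := by
    rw [← fib_homog h, ← hx']
  have hne : k⁻¹ • x ≠ 0 := smul_ne_zero (inv_ne_zero hk0) hx
  have h3 : log (nrm w (F x)) = d * log (nrm w x) + log (nrm w (F (k⁻¹ • x))) := by
    rw [h2, D1.nrm_smul, w.map_pow, log_mul (pow_ne_zero _ (by rw [hk]; exact (D1.nrm_pos hx).ne'))
      (D1.nrm_pos (fib_ne_zero h hne)).ne', log_pow, hk]
  rw [h3]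
  have := h1 _ hu
  linarith

/-- one step -/
theorem one_step (d : ℕ) (hd : 1 ≤ d) : ∃ B : ℝ, 0 ≤ B ∧ ∀ X : ℕ, 1 ≤ X →
    ∀ F : Fin 2 → MvPolynomial (Fin 2) ℤ, (∀ i, (F i).IsHomogeneous d) →
    (∀ i μ, ((F i).coeff μ).natAbs ≤ X) → rs (fq F) d ≠ 0 → ∀ x : Fin 2 → ℚ, x ≠ 0 →
      d * Height.logHeight x - ((2 * d - 1) * log (((mons d).card + 1) * X) + B) ≤
        Height.logHeight (ev (fq F) x) := by
  obtain ⟨B, hB0, hB⟩ := fib_bounds.{0} d hd
  refine ⟨B, hB0, ?_⟩
  intro X hX1 F hF hX h0 x hx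
  have hd1 : (1 : ℝ) ≤ d := by exact_mod_cast hd
  have hX1' : (1 : ℝ) ≤ X := by exact_mod_cast hX1
  have hf : ∀ i, (fq F i).IsHomogeneous d := fun i => (hF i).map _
  -- extensions of places
  choose wi hwi using fun v : InfinitePlace ℚ => exists_ext_inf v
  choose wf hwf using fun v : FinitePlace ℚ => exists_ext_fin v
  have hcf : ∀ (v : FinitePlace ℚ) i m, v.val ((fq F i).coeff m) ≤ 1 := by
    intro v i m
    simp only [fq, MvPolynomial.coeff_map]
    have h1 : v.val ((Int.castRingHom ℚ) ((F i).coeff m)) =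
        v.val (((F i).coeff m).natAbs : ℚ) := by
      rcases Int.natAbs_eq ((F i).coeff m) with h | h
      · conv_lhs => rw [h]
        simp
      · conv_lhs => rw [h]
        simp
    rw [h1]
    exact F1_nat v _
  -- the finite set of places
  obtain ⟨S, hr, hnx⟩ : ∃ S : Finset (FinitePlace ℚ), (∀ v, v ∉ S → v.val (rs (fq F) d) = 1) ∧
      (∀ v, v ∉ S → nrm v.val x = 1) := by
    classical
    refine ⟨(F4_finite_ne h0).toFinset ∪ (F4_finite_nrm hx).toFinset, ?_, ?_⟩
    all_goals
      intro v hv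
      simp only [Finset.mem_union, Set.Finite.mem_toFinset, Set.mem_ofPred_eq, not_or,
        not_not] at hv
      tauto
  have w0 : AbsoluteValue (AlgebraicClosure ℚ) ℝ := by
    classical
    exact AbsoluteValue.trivial
  have hFx : ev (fq F) x ≠ 0 := F4_iter_ne hd hf h0 w0 hx 1
  have hFn : ∀ v, v ∉ S → nrm v.val (ev (fq F) x) = 1 := fun v hv =>
    F4_good hd hf h0 v (wf v) (hwf v) (hcf v) (hr v hv) (hnx v hv)
  rw [F4_logHeight hx S hnx, F4_logHeight hFx S hFn]
  have hp := F4_product h0 S hr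
  -- infinite places
  have hI : ∀ v : InfinitePlace ℚ, (v.mult : ℝ) * (d * log (nrm v.val x)) +
      (v.mult : ℝ) * log (v.val (rs (fq F) d)) -
      (v.mult : ℝ) * ((2 * d - 1) * log (((mons d).card + 1) * X) + B) ≤
      (v.mult : ℝ) * log (nrm v.val (ev (fq F) x)) := by
    intro v
    rw [← mul_add, ← mul_sub]
    refine mul_le_mul_of_nonneg_left ?_ (Nat.cast_nonneg _)
    have hfib := F4_fib hd hf h0 (wi v)
    obtain ⟨-, -, -, h4⟩ := hB _ _ _ _ hfib
    have h5 := low_all hfib h4 (F4_vL_ne hx)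
    rw [F4_ev, F4_ext_nrm (hwi v), F4_ext_nrm (hwi v), F4_rs, hwi v] at h5
    refine le_trans ?_ h5
    have hS : Ssup (wi v) (ev (fL ℚ (fq F))) ≤ log (((mons d).card + 1) * X) := by
      refine Real.iSup_le (fun z => ?_) ?_
      · have hz : z.1 ≠ 0 := B1_ne_zero z.2
        refine log_le_log (F4_nrm_pos _ (fib_ne_zero hfib hz)) ?_
        refine (arch_up hF hX v (wi v) (hwi v) z.2).trans ?_
        nlinarith
      · refine Real.log_nonneg ?_
        have : (0 : ℝ) ≤ (mons d).card := Nat.cast_nonneg _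
        nlinarith
    rw [tt]
    nlinarith
  have hFin : ∀ v ∈ S, d * log (nrm v.val x) + log (v.val (rs (fq F) d)) ≤
      log (nrm v.val (ev (fq F) x)) := by
    intro v _
    have hna := ext_na v (wf v) (hwf v)
    have hfib := F4_fib hd hf h0 (wf v)
    have h4 := (fib_bounds_na (wf v) hna hd hfib).2
    have h5 := low_all hfib h4 (F4_vL_ne hx)
    rw [F4_ev, F4_ext_nrm (hwf v), F4_ext_nrm (hwf v), F4_rs, hwf v] at h5
    refine le_trans ?_ h5
    have hS : Ssup (wf v) (ev (fL ℚ (fq F))) ≤ 0 := by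
      refine Real.iSup_le (fun z => ?_) le_rfl
      exact Real.log_nonpos (le_max_of_le_left ((wf v).nonneg _))
        (fin_up v.val (wf v) (hwf v) hna (hcf v) z.2)
    rw [tt]
    nlinarith
  have h1 := Finset.sum_le_sum fun v (_ : v ∈ (Finset.univ : Finset (InfinitePlace ℚ))) => hI v
  have h2 := Finset.sum_le_sum hFin
  rw [Finset.sum_sub_distrib, Finset.sum_add_distrib, ← Finset.sum_mul] at h1
  rw [Finset.sum_add_distrib] at h2
  have h3 : ∑ v : InfinitePlace ℚ, (v.mult : ℝ) = 1 := by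
    have h := InfinitePlace.sum_mult_eq (K := ℚ)
    rw [Module.finrank_self] at h
    exact_mod_cast h
  rw [h3] at h1
  have h4 : ∑ v : InfinitePlace ℚ, (v.mult : ℝ) * (d * log (nrm v.val x)) =
      d * ∑ v : InfinitePlace ℚ, (v.mult : ℝ) * log (nrm v.val x) := by
    rw [Finset.mul_sum]
    exact Finset.sum_congr rfl fun v _ => by ring
  rw [h4] at h1
  rw [← Finset.mul_sum] at h2
  linarith

theorem ht : S_ht := by
  intro d hd
  obtain ⟨B, hB0, hB⟩ := one_step d (by omega)
  have hd2 : (2 : ℝ) ≤ d := by exact_mod_cast hd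
  have hl2 : 0 < log 2 := log_pos (by norm_num)
  set c : ℝ := (mons d).card + 1 with hc
  have hc1 : 1 ≤ c := by
    have : (0 : ℝ) ≤ (mons d).card := Nat.cast_nonneg _
    linarith
  have hlc : 0 ≤ log c := log_nonneg hc1
  set E : ℝ := (2 * d - 1) * log c + B with hE
  have hE0 : 0 ≤ E := by nlinarith
  obtain ⟨A, hA⟩ := exists_nat_ge (2 * d - 1 + E / log 2)
  refine ⟨A, ?_⟩
  intro X hX2 F hF hX h0 v hv h hlim
  have hX2' : (2 : ℝ) ≤ X := by exact_mod_cast hX2
  have hf : ∀ i, (fq F i).IsHomogeneous d := fun i => (hF i).map _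
  have hlX : log 2 ≤ log X := log_le_log (by norm_num) hX2'
  set G : ℝ := A * log X with hG
  have hG0 : 0 ≤ G := mul_nonneg (Nat.cast_nonneg _) (hl2.le.trans hlX)
  have hGE : (2 * d - 1) * log (c * X) + B ≤ G := by
    rw [log_mul (by linarith) (by linarith)]
    have h1 : E ≤ E / log 2 * log X := by
      rw [div_mul_eq_mul_div, le_div_iff₀ hl2]
      exact mul_le_mul_of_nonneg_left hlX hE0
    have h2 : (2 * d - 1 + E / log 2) * log X ≤ A * log X :=
      mul_le_mul_of_nonneg_right hA (hl2.le.trans hlX)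
    rw [hG]
    nlinarith
  have w0 : AbsoluteValue (AlgebraicClosure ℚ) ℝ := by
    classical
    exact AbsoluteValue.trivial
  have hit : ∀ n : ℕ, (ev (fq F))^[n] v ≠ 0 := fun n =>
    F4_iter_ne (by omega) hf h0 w0 hv n
  have hmain : ∀ j : ℕ, Height.logHeight v - G * (1 - 1 / (d : ℝ) ^ j) ≤
      Real.log (Height.mulHeight ((ev (fq F))^[j] v)) / (d : ℝ) ^ j := by
    intro j
    induction j with
    | zero => simp [Height.logHeight_eq_log_mulHeight]
    | succ j ih =>
      have h1 := hB X (by omega) F hF hX h0 _ (hit j)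
      rw [← Function.iterate_succ_apply' (ev (fq F)) j v] at h1
      rw [← Height.logHeight_eq_log_mulHeight] at ih ⊢
      have hp : (0 : ℝ) < (d : ℝ) ^ j := by positivity
      have hp1 : (0 : ℝ) < (d : ℝ) ^ (j + 1) := by positivity
      rw [le_div_iff₀ hp1]
      rw [le_div_iff₀ hp] at ih
      have h2 : (Height.logHeight v - G * (1 - 1 / (d : ℝ) ^ j)) * (d : ℝ) ^ j =
          Height.logHeight v * (d : ℝ) ^ j - G * ((d : ℝ) ^ j - 1) := by
        field_simp
      have h3 : (Height.logHeight v - G * (1 - 1 / (d : ℝ) ^ (j + 1))) * (d : ℝ) ^ (j + 1) =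
          Height.logHeight v * (d : ℝ) ^ (j + 1) - G * ((d : ℝ) ^ (j + 1) - 1) := by
        field_simp
      rw [h2] at ih
      rw [h3]
      have h4 := mul_le_mul_of_nonneg_left ih (by linarith : (0 : ℝ) ≤ d)
      rw [pow_succ]
      nlinarith
  refine le_trans ?_ (add_le_add_left (ge_of_tendsto' (b := Height.logHeight v - G) hlim ?_) _)
  · rw [Height.logHeight_eq_log_mulHeight]
    linarith
  · intro j
    refine le_trans ?_ (hmain j)
    have hp : (0 : ℝ) < 1 / (d : ℝ) ^ j := by positivity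
    nlinarith

end Pool.Agent.Q14.FX
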